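import Pool.Agent.MP_5c28a4_al.H89.Spec

set_option autoImplicit false

namespace Pool.Agent.MP_5c28a4_al.H17

open Pool.Agent.Burnside6 Pool.Agent.MP_5c28a4_al.H89

/-- the first index with nonnegative position, followed by many indices inside the window -/
theorem start (A : ℕ → ℤ) (M S l' Λ : ℕ) (h0 : A 0 ≤ 0) (hM : (Λ : ℤ) - 12 ≤ A M)
    (hlo : ∀ i, i < M → A i ≤ A (i + 1)) (hup : ∀ i, i < M → A (i + 1) ≤ A i + l')
    (hΛ : (S + 2) * l' + 47 ≤ Λ) :
    ∃ i, i + S + 1 ≤ M ∧ A i ≤ l' ∧ ∀ s, s ≤ S + 1 → 0 ≤ A (i + s) ∧ A (i + s) + 47 ≤ Λ := by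
  classical
  have hex : ∃ i, 0 ≤ A i := ⟨M, by omega⟩
  have h1 : 0 ≤ A (Nat.find hex) := Nat.find_spec hex
  have h2 : Nat.find hex ≤ M := Nat.find_min' hex (by omega)
  have h3 : A (Nat.find hex) ≤ l' := by
    rcases Nat.eq_zero_or_pos (Nat.find hex) with h | h
    · rw [h]; omega
    · obtain ⟨j, hj⟩ : ∃ j, Nat.find hex = j + 1 := ⟨Nat.find hex - 1, by omega⟩
      have := Nat.find_min hex (show j < Nat.find hex by omega)
      have := hup j (by omega)
      rw [hj]; omega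
  generalize Nat.find hex = i at h1 h2 h3
  have hb : ∀ s, s ≤ S + 1 → (s + 1) * l' + 47 ≤ Λ := fun s hs => by
    have := Nat.mul_le_mul_right l' (show s + 1 ≤ S + 2 by omega)
    omega
  have key : ∀ s, s ≤ S + 1 → i + s ≤ M ∧ 0 ≤ A (i + s) ∧ A (i + s) ≤ ((s + 1) * l' : ℕ) := by
    intro s
    induction s with
    | zero => intro _; simp only [add_zero, zero_add, one_mul]; exact ⟨h2, h1, h3⟩
    | succ s ih =>
      intro hs
      obtain ⟨a1, a2, a3⟩ := ih (by omega)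
      have b := hb s (by omega)
      have hne : i + s ≠ M := by
        intro h; rw [h] at a3; omega
      have c1 := hlo (i + s) (by omega)
      have c2 := hup (i + s) (by omega)
      have e : (s + 1 + 1) * l' = (s + 1) * l' + l' := Nat.succ_mul _ _
      rw [← add_assoc, e]
      omega
  refine ⟨i, (key (S + 1) le_rfl).1, h3, fun s hs => ?_⟩
  have := key s hs
  have := hb s hs
  omega

/-- one dimensional alignment -/
theorem oneD (A A' : ℕ → ℤ) (R : ℕ → ℕ → Prop) (M M' S l' Λ l : ℕ) (h0 : A 0 ≤ 0) (h0' : A' 0 ≤ 0)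
    (hM : (Λ : ℤ) - 12 ≤ A M) (hM' : (Λ : ℤ) - 12 ≤ A' M')
    (hlo : ∀ i, i < M → A i + 2 * l + 2 ≤ A (i + 1))
    (hlo' : ∀ i, i < M' → A' i + 2 * l + 2 ≤ A' (i + 1))
    (hup : ∀ i, i < M → A (i + 1) ≤ A i + l') (hΛ : (S + 2) * l' + 47 ≤ Λ)
    (rule : ∀ i k (t : ℕ), i < M → k < M' → A i ≤ t → A' k ≤ t → t + l ≤ A (i + 1) →
      t + l ≤ A' (k + 1) → t + l ≤ Λ → R i k)
    (x1 : ∀ i k, i + 1 < M → k < M' → R i k → R (i + 1) k → False)
    (x2 : ∀ i k, i < M → k + 1 < M' → R i k → R i (k + 1) → False) :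
    ∃ i k, i + S ≤ M ∧ k + S ≤ M' ∧ ∀ s, s < S → R (i + s) (k + s) := by
  classical
  obtain ⟨i, hi, -, hs⟩ := start A M S l' Λ h0 hM (fun i hi => by have := hlo i hi; omega) hup hΛ
  have rule' : ∀ i k (t : ℤ), 0 ≤ t → i < M → k < M' → A i ≤ t → A' k ≤ t → t + l ≤ A (i + 1) →
      t + l ≤ A' (k + 1) → t + l ≤ Λ → R i k := by
    intro i k t ht a1 a2 a3 a4 a5 a6 a7
    obtain ⟨n, rfl⟩ := Int.eq_ofNat_of_zero_le ht
    exact rule i k n a1 a2 a3 a4 a5 a6 (by omega)
  have s0 := hs 0 (by omega)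
  have s1 := hs 1 (by omega)
  have g0 := hlo i (by omega)
  rw [add_zero] at s0
  have hex : ∃ j, A i + l < A' j := ⟨M', by omega⟩
  have h1 : A i + l < A' (Nat.find hex) := Nat.find_spec hex
  have h2 : Nat.find hex ≤ M' := Nat.find_min' hex (by omega)
  have h3 : Nat.find hex ≠ 0 := by
    intro h; rw [h] at h1; omega
  obtain ⟨k, hk⟩ : ∃ k, Nat.find hex = k + 1 := ⟨Nat.find hex - 1, by omega⟩
  have h4 := Nat.find_min hex (show k < Nat.find hex by omega)
  rw [hk] at h1 h2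
  have good : ∀ s, s ≤ S → k + s < M' → A (i + s) + l ≤ A' (k + s + 1) →
      A' (k + s) + l ≤ A (i + s + 1) → R (i + s) (k + s) := by
    intro s h a1 a2 a3
    have b1 := hs s (by omega)
    have b2 := hs (s + 1) (by omega)
    have b3 := hlo (i + s) (by omega)
    have b4 := hlo' (k + s) a1
    rw [← add_assoc] at b2
    exact rule' (i + s) (k + s) (max (A (i + s)) (A' (k + s))) (by omega) (by omega) a1 (by omega)
      (by omega) (by omega) (by omega) (by omega)
  have inv : ∀ s, s ≤ S → k + s < M' ∧ A (i + s) + l ≤ A' (k + s + 1) ∧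
      A' (k + s) + l ≤ A (i + s + 1) := by
    intro s
    induction s with
    | zero => intro _; simp only [add_zero]; omega
    | succ s ih =>
      intro h
      obtain ⟨a1, a2, a3⟩ := ih (by omega)
      have r := good s (by omega) a1 a2 a3
      have b0 := hs s (by omega)
      have b1 := hs (s + 1) (by omega)
      have b2 := hs (s + 1 + 1) (by omega)
      have b3 := hlo (i + s + 1) (by omega)
      rw [← add_assoc] at b1
      rw [← add_assoc, ← add_assoc] at b2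
      have c1 : A' (k + s + 1) < A (i + s + 1) + l := by
        by_contra hc
        exact x1 (i + s) (k + s) (by omega) a1 r (rule' (i + s + 1) (k + s) (A (i + s + 1))
          (by omega) (by omega) a1 le_rfl (by omega) (by omega) (by omega) (by omega))
      have c2 : k + s + 1 ≠ M' := by
        intro h; rw [h] at c1; omega
      have b4 := hlo' (k + s + 1) (by omega)
      have c3 : A (i + s + 1) < A' (k + s + 1) + l := by
        by_contra hc
        exact x2 (i + s) (k + s) (by omega) (by omega) r (rule' (i + s) (k + s + 1)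
          (A' (k + s + 1)) (by omega) (by omega) (by omega) (by omega) le_rfl (by omega)
          (by omega) (by omega))
      rw [← add_assoc, ← add_assoc]
      omega
  refine ⟨i, k, by omega, (inv S le_rfl).1.le, fun s h => ?_⟩
  obtain ⟨a1, a2, a3⟩ := inv s h.le
  exact good s h.le a1 a2 a3

variable {G : Type} [Group G] {X : Nm G} {E : ℕ}

/-- points of the common segment are moved little by the witness of the link above them -/
theorem cover (h : TF X E) {x u : ℕ → G} {M ω ℓ : ℕ} (w : WC X x u M ω ℓ)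
    (hℓ : 752 + 20 * ω ≤ ℓ) {γ : ℕ → G} {Λ : ℕ} (g : ∀ i, X.d (γ i) (γ (i + 1)) ≤ 1)
    (hl : X.d (γ 0) (γ Λ) = Λ) (ho : On X (x 0) (x M) (γ 0) (γ Λ) 12) {i t : ℕ} (hi : i < M)
    (ht : t ≤ Λ) (h1 : X.d (x 0) (x i) ≤ X.d (x 0) (γ 0) + t)
    (h2 : X.d (x 0) (γ 0) + t ≤ X.d (x 0) (x (i + 1))) :
    X.d (γ t) (u i * γ t) ≤ 1530 + 41 * ω := by
  unfold On at ho
  have e1 := X.geo_d g hl (Nat.zero_le t) ht
  have e2 := X.geo_d g hl ht le_rfl
  have t1 := X.tri (x 0) (γ 0) (γ t)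
  have t2 := X.tri (γ t) (γ Λ) (x M)
  have t3 := X.tri (x 0) (γ t) (x M)
  have hb : X.d (x 0) (γ t) + X.d (γ t) (x M) ≤ X.d (x 0) (x M) + 12 := by omega
  have b1 := w.btw h hℓ (Nat.zero_le i) hi.le le_rfl
  have b2 := w.btw h hℓ (Nat.zero_le (i + 1)) hi le_rfl
  have l1 := h.fp.L2 b1 hb
  have l2 := h.fp.L2 b2 hb
  have t4 := X.tri (x 0) (x i) (x (i + 1))
  have := X.comm (γ t) (x (i + 1))
  have hz : X.d (x i) (γ t) + X.d (γ t) (x (i + 1)) ≤
      X.d (x i) (x (i + 1)) + (1528 + 40 * ω) := by omega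
  have := h.fp.disp hz (w.w1 i hi) (w.w2 i hi)
  omega

theorem gap (h : TF X E) {x u : ℕ → G} {M ω ℓ : ℕ} (w : WC X x u M ω ℓ)
    (hℓ : 752 + 20 * ω ≤ ℓ) {i : ℕ} (hi : i < M) :
    X.d (x 0) (x i) + ℓ ≤ X.d (x 0) (x (i + 1)) + (750 + 20 * ω) := by
  have := w.btw h hℓ (Nat.zero_le i) (Nat.le_add_right i 1) hi
  have := w.len i hi
  omega

theorem align : AlignStmt := by
  intro G _ X E h x u x' u' M M' ω ℓ ℓ' S β w w' hℓ hup hβ hc
  obtain ⟨m, m', o1, o2, hb⟩ := core h.fp (by omega) hc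
  obtain ⟨γ, g0, gl, g⟩ := X.exists_path _ m m' le_rfl
  have hl : X.d (γ 0) (γ (X.d m m')) = X.d m m' := by rw [g0, gl]
  generalize X.d m m' = Λ at *
  subst g0 gl
  have o1 := o1.mono (show 0 ≤ 12 by omega)
  have hℓ' : 752 + 20 * ω ≤ ℓ := by omega
  refine oneD (fun i => (X.d (x 0) (x i) : ℤ) - X.d (x 0) (γ 0))
    (fun i => (X.d (x' 0) (x' i) : ℤ) - X.d (x' 0) (γ 0)) (fun i k => Commute (u i) (u' k))
    M M' S ℓ' Λ (332 + 10 * (1530 + 41 * ω)) ?_ ?_ ?_ ?_ ?_ ?_ ?_ ?_ ?_ ?_ ?_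
  · simp
  · simp
  · unfold On at o1; omega
  · unfold On at o2; omega
  · intro i hi
    have := gap h w hℓ' hi
    omega
  · intro i hi
    have := gap h w' hℓ' hi
    omega
  · intro i hi
    have := hup i hi
    have := X.tri (x 0) (x i) (x (i + 1))
    omega
  · rw [mul_assoc] at hβ; omega
  · intro i k t hi hk a1 a2 a3 a4 a5
    have e := X.geo_d g hl (Nat.le_add_right t (332 + 10 * (1530 + 41 * ω))) a5
    exact h.h4p _ _ _ (γ t) (γ (t + (332 + 10 * (1530 + 41 * ω))))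
      (cover h w hℓ' g hl o1 hi (by omega) (by omega) (by omega))
      (cover h w hℓ' g hl o1 hi a5 (by omega) (by omega))
      (cover h w' hℓ' g hl o2 hk (by omega) (by omega) (by omega))
      (cover h w' hℓ' g hl o2 hk a5 (by omega) (by omega)) (by omega)
  · intro i k hi hk a b
    exact w.nc i hi (h.csaa _ _ _ (w'.ne k hk) a b)
  · intro i k hi hk a b
    exact w'.nc k hk (h.csaa _ _ _ (w.ne i hi) a.symm b.symm)

theorem along : AlongStmt := by
  intro G _ X E h x u a b M ω ℓ ℓ' S β w hℓ hup hβ hc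
  obtain ⟨m, m', o1, o2, hb⟩ := core h.fp (by omega) hc
  obtain ⟨γ, g0, gl, g⟩ := X.exists_path _ m m' le_rfl
  have hl : X.d (γ 0) (γ (X.d m m')) = X.d m m' := by rw [g0, gl]
  generalize X.d m m' = Λ at *
  subst g0 gl
  have o1 := o1.mono (show 0 ≤ 12 by omega)
  have hℓ' : 752 + 20 * ω ≤ ℓ := by omega
  obtain ⟨i, hi, -, hs⟩ := start (fun i => (X.d (x 0) (x i) : ℤ) - X.d (x 0) (γ 0)) M S ℓ' Λ
    (by simp) (by unfold On at o1; omega)
    (fun i hi => by have := gap h w hℓ' hi; omega)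
    (fun i hi => by
      have := hup i hi
      have := X.tri (x 0) (x i) (x (i + 1))
      omega) (by rw [mul_assoc] at hβ; omega)
  refine ⟨i, by omega, fun s hs' => ?_⟩
  have b1 := hs s (by omega)
  have b2 := hs (s + 1) (by omega)
  rw [← add_assoc] at b2
  have hi' : i + s < M := by omega
  have gp := gap h w hℓ' hi'
  obtain ⟨t, ht⟩ : ∃ t, t = X.d (x 0) (x (i + s)) - X.d (x 0) (γ 0) := ⟨_, rfl⟩
  obtain ⟨t', ht'⟩ : ∃ t, t = X.d (x 0) (x (i + s + 1)) - X.d (x 0) (γ 0) := ⟨_, rfl⟩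
  have e1 := X.geo_d g hl (Nat.zero_le t) (by omega)
  have e2 := X.geo_d g hl (show t ≤ t' by omega) (by omega)
  have e3 := X.geo_d g hl (show t' ≤ Λ by omega) le_rfl
  have o3 : On X (γ 0) (γ Λ) (γ t) (γ t') 0 := by unfold On; omega
  refine Cr.wit h.fp (Cr.of_on (o2.trans o3) (On.refl _ _) ?_)
    (cover h w hℓ' g hl o1 hi' (t := t) (by omega) (by omega) (by omega))
    (cover h w hℓ' g hl o1 hi' (t := t') (by omega) (by omega) (by omega))
  omega

end Pool.Agent.MP_5c28a4_al.H17
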